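import Pool.Agent.Q255.EB.Ell
import Pool.Agent.Q184.EB.Corner
import Pool.Agent.Q277.EB.Boxes
import Pool.Agent.Q277.EB.Scales
import Pool.Agent.Q277.EB.Ind
import Pool.Agent.Q124.EB.Mom
import Pool.Agent.Q124.EB.Chain
import Pool.Agent.Q124.EB.Psi

/-!
# Frobenius angles at `s` consecutive primes: all boxes at once

Let `a, b` be arbitrary polynomials in `d` variables over `ℤ`, and `E_ν : y² = x³ + a(ν) x + b(ν)`, `ν ∈ ℤ^d`.
`A(R; K)` is the number of the `k < K` for which the Frobenius angles of `E_ν` at the `s` primes with the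
numbers `k, …, k + s - 1` lie in the box `R`, and `M(R; K)` is its mean over the residues `ν` modulo the product
of the first `K + s` primes.

For most members of every family the deviation `sup_R |A(R; K) - M(R; K)|` over ALL boxes has the exact order
`√K`: no factor `K^ε` and no logarithm; and for all `K' ≤ K` at once it is `O(√K' (1 + log K')^η)`, for
every `η > 0`.
-/

set_option autoImplicit false

namespace Pool.Agent.Results.MP_29be01_nt.AllBoxesAtOnce

open Finset Pool.Agent.Q255.EB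

/-- `s` is the length of the windows.

(1) For all `m` and `η > 0` there are constants such that for every family, every `K ≥ 1`, every box of
parameters with sides at least `C₀ (d + 1) p^A`, `p` the prime with the number `K + s`, and every `λ ≥ 1`: for all
but the proportion `C/λ^m` of the members, `|A(R; K') - M(R; K')| ≤ λ √K' (1 + log K')^η` for ALL boxes `R` and
all `1 ≤ K' ≤ K`.

(2) The same with `|A(R; K') - M(R; K')| ≤ λ √K` for all boxes `R` and all `K' ≤ K`.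

(3) If some box `R` has variance at least `c K` in the family, then for all but the proportion `ε` of the
members `|A(R; K) - M(R; K)| ≥ η √K`, `η = η(s, c, ε) > 0`. -/
theorem result (s : ℕ) :
    (∀ (m : ℕ) (η : ℝ), 0 < η → ∃ (C C₀ : ℝ) (A : ℕ), 0 < C ∧ 0 < C₀ ∧
      ∀ (d : ℕ) (a b : MvPolynomial (Fin d) ℤ) (K : ℕ), 0 < K → ∀ (u : Fin d → ℤ) (L : Fin d → ℕ),
        (∀ i, C₀ * (d + 1) * (pk (K + s) : ℝ) ^ A ≤ L i) → ∀ lam : ℝ, 1 ≤ lam →
          proportion u L (fun ν => ∃ K' : ℕ, 0 < K' ∧ K' ≤ K ∧ ∃ R : Fin s → Set ℝ,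
            (∀ i, (R i).OrdConnected) ∧ lam * √K' * (1 + Real.log K') ^ η <
              |boxCount R K' (MvPolynomial.eval ν a) (MvPolynomial.eval ν b) - boxMean a b R K'|) ≤
            C / lam ^ m) ∧
    (∀ m : ℕ, ∃ (C C₀ : ℝ) (A : ℕ), 0 < C ∧ 0 < C₀ ∧
      ∀ (d : ℕ) (a b : MvPolynomial (Fin d) ℤ) (K : ℕ), 0 < K → ∀ (u : Fin d → ℤ) (L : Fin d → ℕ),
        (∀ i, C₀ * (d + 1) * (pk (K + s) : ℝ) ^ A ≤ L i) → ∀ lam : ℝ, 1 ≤ lam →
          proportion u L (fun ν => ∃ K' : ℕ, K' ≤ K ∧ ∃ R : Fin s → Set ℝ,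
            (∀ i, (R i).OrdConnected) ∧ lam * √K <
              |boxCount R K' (MvPolynomial.eval ν a) (MvPolynomial.eval ν b) - boxMean a b R K'|) ≤
            C / lam ^ m) ∧
    (∀ c ε : ℝ, 0 < c → 0 < ε → ∃ (η : ℝ) (K₀ : ℕ) (C₀ : ℝ) (A : ℕ), 0 < η ∧ 0 < C₀ ∧
      ∀ (d : ℕ) (a b : MvPolynomial (Fin d) ℤ) (K : ℕ), K₀ ≤ K → ∀ R : Fin s → Set ℝ,
        c * K ≤ boxVariance a b R K → ∀ (u : Fin d → ℤ) (L : Fin d → ℕ),
        (∀ i, C₀ * (d + 1) * (pk (K + s) : ℝ) ^ A ≤ L i) →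
          1 - ε ≤ proportion u L (fun ν => η * √K ≤
            |boxCount R K (MvPolynomial.eval ν a) (MvPolynomial.eval ν b) - boxMean a b R K|)) := by
  have hCO : S_CORNER := Pool.Agent.Q184.EB.t_CORNER Pool.Agent.Q124.EB.t_MOM Pool.Agent.Q124.EB.t_CHAIN
    Pool.Agent.Q124.EB.t_PSI
  have hBX : S_BOXES := Pool.Agent.Q277.EB.s_boxes hCO Pool.Agent.Q124.EB.t_PSI
  have hSC : S_SCALES := Pool.Agent.Q277.EB.s_scales hBX
  have hLO : S_LOWER := Pool.Agent.Q277.EB.s_lower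
  have hle : ∀ (K i : ℕ), i < K + s → pk i ≤ pk (K + s) := fun K i hi =>
    pk_strictMono.monotone (by omega)
  have hKle : ∀ K : ℕ, K ≤ pk (K + s) := fun K => by
    have := pk_strictMono.le_apply (x := K + s)
    omega
  have hpos : ∀ (d K A : ℕ) (C₀ : ℝ) (L : Fin d → ℕ), 0 < C₀ →
      (∀ i, C₀ * (d + 1) * (pk (K + s) : ℝ) ^ A ≤ L i) → ∀ i, 0 < L i := by
    intro d K A C₀ L hC h i
    have h1 : (0 : ℝ) < pk (K + s) := by exact_mod_cast (pk_prime _).pos
    have h2 : (0 : ℝ) < L i := lt_of_lt_of_le (by positivity) (h i)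
    exact_mod_cast h2
  have hpow : ∀ (m r : ℕ) (C lam : ℝ), 0 < C → m ≤ 2 * r → 1 ≤ lam → C / lam ^ (2 * r) ≤ C / lam ^ m := by
    intro m r C lam hC hm hl
    have h1 : (0 : ℝ) < lam ^ m := by positivity
    exact div_le_div_of_nonneg_left hC.le h1 (pow_le_pow_right₀ hl hm)
  refine ⟨fun m η hη => ?_, fun m => ?_, fun c ε hc hε => ?_⟩
  · obtain ⟨C, C₀, A, hC, hC₀, h⟩ := hSC s m η hη
    refine ⟨C, C₀, A, hC, hC₀, fun d a b K hK u L hL lam hl => ?_⟩
    obtain ⟨T, hT1, hT2, hT3⟩ := h d K pk (ang a b) hK (fam a b (K + s)) (pk (K + s)) (hle K) (hKle K)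
      u L hL lam hl
    refine (proportion_le (hpos d K A C₀ L hC₀ hL) hT2 fun ν hν hνT => ?_).trans
      (hpow m m C lam hC (by omega) hl)
    rintro ⟨K', h1, h2, R, h3, h4⟩
    have h5 := hT3 ν hν hνT K' h1 h2 R h3
    rw [count_eq, ← boxMean_eq] at h5
    exact absurd h5 (not_le.2 h4)
  · obtain ⟨C, C₀, A, hC, hC₀, h⟩ := hBX s (m + 4 * (s + 1) + 1) (by omega)
    refine ⟨C, C₀, A, hC, hC₀, fun d a b K hK u L hL lam hl => ?_⟩
    obtain ⟨T, hT1, hT2, hT3⟩ := h d K pk (ang a b) hK (fam a b (K + s)) (pk (K + s)) (hle K) (hKle K)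
      u L hL lam hl
    refine (proportion_le (hpos d K A C₀ L hC₀ hL) hT2 fun ν hν hνT => ?_).trans
      (hpow m _ C lam hC (by omega) hl)
    rintro ⟨K', h2, R, h3, h4⟩
    have h5 := hT3 ν hν hνT K' h2 R h3
    rw [count_eq, ← boxMean_eq] at h5
    exact absurd h5 (not_le.2 h4)
  · obtain ⟨η, K₀, C₀, A, hη, hC₀, h⟩ := hLO s c ε hc hε
    refine ⟨η, K₀, C₀, A, hη, hC₀, fun d a b K hK R hV u L hL => ?_⟩
    rw [boxVariance_eq] at hV
    obtain ⟨T, hT1, hT2, hT3⟩ := h d K pk (ang a b) hK (fam a b (K + s)) R hV (pk (K + s)) (hle K)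
      (hKle K) u L hL
    refine le_proportion (hpos d K A C₀ L hC₀ hL) hT2 fun ν hν hνT => ?_
    have h5 := hT3 ν hν hνT
    rw [count_eq, ← boxMean_eq] at h5
    exact h5

end Pool.Agent.Results.MP_29be01_nt.AllBoxesAtOnce
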