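import Pool.Agent.Q285.MD.Main

/-!
# Frobenius angles at `s` consecutive primes: the Gaussian law for almost all members of every family

Let `a, b` be arbitrary polynomials in `d` variables over `ℤ`, and consider the curves
`E_ν : y ^ 2 = x ^ 3 + a(ν) x + b(ν)`, `ν ∈ ℤ ^ d`, with the Frobenius angles `x_k` at the primes `p_k`. Let `w_k` be any real
functions on `ℝ ^ s` with `|w_k| ≤ 1`. The sum `S_ν(K)` of the `w_k(x_k, ..., x_(k+s-1))` over `k < K` is studied. If `w_k` is the
indicator function of a box `R` then `S_ν(K)` is the number `A(R; K)`. The model is the random member of the family modulo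
`Q = p_0 ... p_(K+s-1)`, that is to say independent random members over the fields `F_p`. Let `M` and `V` be the mean
and the variance of the model. It is proved that for every `c > 0` and `ε > 0` there are constants such that if `K` exceeds
a constant, `V ≥ c K`, and the sides of a box of parameters exceed a constant times `p_(K+s) ^ A`, the proportion of the `ν` of the
box with `S_ν(K) ≤ M + y sqrt V` differs from `Φ(y)` by at most `ε`, for all `y`. The constants depend on `s`, `c`, `ε` only.
So `sqrt K` is the true order of the deviation of the number of the `k < K` with `(x_k, ..., x_(k+s-1)) ∈ R` from its expected number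
for most of the curves of every family (with `V ≥ c K`), and the exponent `1/2` cannot be replaced by a larger one.

Proof. The primes are divided into blocks of `B` consecutive primes, where `B` is a large constant. The windows inside of the blocks
give independent bounded variables, and the Gaussian law for sums of functions of residues to coprime moduli can be applied
(file `Pool.Agent.Q282.LT.Shift`). The sum over the other windows has a small variance in the model and a small second moment over
the box of parameters.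
-/

set_option autoImplicit false

namespace Pool.Agent.Results.MP_29be01_nt.GaussianLaw

open Finset

/-- The number of the solutions `(x, y)` of `y² = x³ + A x + B` modulo `p`. -/
def points (p : ℕ) (A B : ℤ) : ℕ :=
  ((range p ×ˢ range p).filter
    (fun xy : ℕ × ℕ => (p : ℤ) ∣ (xy.2 : ℤ) ^ 2 - ((xy.1 : ℤ) ^ 3 + A * xy.1 + B))).card

/-- The Frobenius angle in `[0, 1]` of the curve `y² = x³ + A x + B` at the prime `p`: it is `θ` with
`2 p ^ (1 / 2) cos (π θ) = p + 1 - #E(F_p) = p - points p A B`, and `1 / 2` if `p ∣ 2 (4 A³ + 27 B²)`. -/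
noncomputable def angle (A B : ℤ) (p : ℕ) : ℝ :=
  if (p : ℤ) ∣ 2 * (4 * A ^ 3 + 27 * B ^ 2) then 1 / 2
  else Real.arccos (((p : ℝ) - points p A B) / (2 * Real.sqrt p)) / Real.pi

/-- The sum over `k < K` of the values of `w k` at the angles of the curve `y² = x³ + A x + B` at the `s` consecutive primes with the
numbers `k, ..., k + s - 1` (the primes are numbered from `0`). -/
noncomputable def total {s : ℕ} (w : ℕ → (Fin s → ℝ) → ℝ) (K : ℕ) (A B : ℤ) : ℝ :=
  ∑ k ∈ range K, w k (fun i : Fin s => angle A B (Nat.nth Nat.Prime (k + i)))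

/-- The average over the residues modulo `Q`. -/
noncomputable def average (d Q : ℕ) (f : (Fin d → ℤ) → ℝ) : ℝ :=
  (∑ ν ∈ Fintype.piFinset fun _ : Fin d => range Q, f (fun i => (ν i : ℤ))) / (Q : ℝ) ^ d

/-- The mean of the model: the average of the sum over all residues modulo the product of the first `K + s` primes. -/
noncomputable def modelMean {d s : ℕ} (a b : MvPolynomial (Fin d) ℤ) (w : ℕ → (Fin s → ℝ) → ℝ) (K : ℕ) : ℝ :=
  average d (∏ i ∈ range (K + s), Nat.nth Nat.Prime i) fun ν => total w K (MvPolynomial.eval ν a) (MvPolynomial.eval ν b)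

/-- The variance of the model. -/
noncomputable def modelVariance {d s : ℕ} (a b : MvPolynomial (Fin d) ℤ) (w : ℕ → (Fin s → ℝ) → ℝ) (K : ℕ) : ℝ :=
  average d (∏ i ∈ range (K + s), Nat.nth Nat.Prime i) (fun ν => total w K (MvPolynomial.eval ν a) (MvPolynomial.eval ν b) ^ 2) -
    modelMean a b w K ^ 2

/-- The box of the integer vectors `ν` with `m i ≤ ν i < m i + L i`. -/
noncomputable def box {d : ℕ} (m : Fin d → ℤ) (L : Fin d → ℕ) : Finset (Fin d → ℤ) :=
  Fintype.piFinset fun i => Ico (m i) (m i + L i)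

open Classical in
/-- The proportion of the `ν` of the box with the property `P`. -/
noncomputable def proportion {d : ℕ} (m : Fin d → ℤ) (L : Fin d → ℕ) (P : (Fin d → ℤ) → Prop) : ℝ :=
  (((box m L).filter P).card : ℝ) / ∏ i, (L i : ℝ)

/-- The distribution function of the standard normal law. -/
noncomputable def Phi (y : ℝ) : ℝ := (ProbabilityTheory.gaussianReal 0 1).real (Set.Iic y)

/-! ### Proofs -/

lemma points_congr (p : ℕ) {A A' B B' : ℤ} (hA : (p : ℤ) ∣ A - A') (hB : (p : ℤ) ∣ B - B') :
    points p A B = points p A' B' := by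
  unfold points
  congr 1
  apply filter_congr
  intro xy _
  have h : (p : ℤ) ∣ ((xy.2 : ℤ) ^ 2 - ((xy.1 : ℤ) ^ 3 + A * xy.1 + B)) -
      ((xy.2 : ℤ) ^ 2 - ((xy.1 : ℤ) ^ 3 + A' * xy.1 + B')) := by
    have e : ((xy.2 : ℤ) ^ 2 - ((xy.1 : ℤ) ^ 3 + A * xy.1 + B)) -
      ((xy.2 : ℤ) ^ 2 - ((xy.1 : ℤ) ^ 3 + A' * xy.1 + B')) = -((A - A') * xy.1 + (B - B')) := by ring
    rw [e]
    exact (dvd_add (hA.mul_right _) hB).neg_right
  exact (dvd_iff_dvd_of_dvd_sub h)

lemma angle_congr (p : ℕ) {A A' B B' : ℤ} (hA : (p : ℤ) ∣ A - A') (hB : (p : ℤ) ∣ B - B') :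
    angle A B p = angle A' B' p := by
  unfold angle
  rw [points_congr p hA hB]
  have h : (p : ℤ) ∣ 2 * (4 * A ^ 3 + 27 * B ^ 2) - 2 * (4 * A' ^ 3 + 27 * B' ^ 2) := by
    have e : 2 * (4 * A ^ 3 + 27 * B ^ 2) - 2 * (4 * A' ^ 3 + 27 * B' ^ 2) =
      (A - A') * (8 * (A ^ 2 + A * A' + A' ^ 2)) + (B - B') * (54 * (B + B')) := by ring
    rw [e]
    exact dvd_add (hA.mul_right _) (hB.mul_right _)
  have h2 := dvd_iff_dvd_of_dvd_sub h
  by_cases h3 : (p : ℤ) ∣ 2 * (4 * A ^ 3 + 27 * B ^ 2)
  · rw [if_pos h3, if_pos (h2.mp h3)]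
  · rw [if_neg h3, if_neg (fun h4 => h3 (h2.mpr h4))]

lemma eval_congr {d : ℕ} (p : ℕ) (a : MvPolynomial (Fin d) ℤ) {ν ν' : Fin d → ℤ} (h : ∀ i, (p : ℤ) ∣ ν i - ν' i) :
    (p : ℤ) ∣ MvPolynomial.eval ν a - MvPolynomial.eval ν' a := by
  induction a using MvPolynomial.induction_on with
  | C c => simp
  | add f g hf hg =>
    rw [map_add, map_add, add_sub_add_comm]
    exact dvd_add hf hg
  | mul_X f i hf =>
    rw [map_mul, map_mul, MvPolynomial.eval_X, MvPolynomial.eval_X]
    have e : MvPolynomial.eval ν f * ν i - MvPolynomial.eval ν' f * ν' i =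
      (MvPolynomial.eval ν f - MvPolynomial.eval ν' f) * ν i + (ν i - ν' i) * MvPolynomial.eval ν' f := by ring
    rw [e]
    exact dvd_add (hf.mul_right _) ((h i).mul_right _)

lemma data (d s K : ℕ) (a b : MvPolynomial (Fin d) ℤ) (w : ℕ → (Fin s → ℝ) → ℝ) (hw : ∀ k x, |w k x| ≤ 1) :
    Q285MD.Dat d s K (Nat.nth Nat.Prime) fun k ν =>
      w k (fun i : Fin s => angle (MvPolynomial.eval ν a) (MvPolynomial.eval ν b) (Nat.nth Nat.Prime (k + i))) where
  q1 := fun i _ => (Nat.prime_nth_prime i).one_lt.le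
  cop := fun i _ j _ hij => (Nat.coprime_primes (Nat.prime_nth_prime i) (Nat.prime_nth_prime j)).2
    fun h => hij (Nat.nth_injective Nat.infinite_setOf_prime h)
  per := by
    intro k _ ν ν' hν
    show w k _ = w k _
    congr 1
    funext i
    have h1 : Nat.nth Nat.Prime (k + i) ∣ Q285MD.wm (Nat.nth Nat.Prime) s k := by
      unfold Q285MD.wm
      refine dvd_prod_of_mem _ ?_
      rw [mem_Ico]
      have := i.2
      omega
    have h2 : ∀ j, ((Nat.nth Nat.Prime (k + i) : ℕ) : ℤ) ∣ ν j - ν' j := fun j => (Int.natCast_dvd_natCast.2 h1).trans (hν j)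
    exact angle_congr _ (eval_congr _ a h2) (eval_congr _ b h2)
  bd := fun k _ ν => hw k _

/-- Let `s ≥ 0`, `c > 0` and `ε > 0`. There are `K₀`, `C₀ > 0` and `A` with the following property. Let `a, b` be polynomials in
`d ≥ 0` variables over `ℤ`, let `w k`, `k ≥ 0`, be real functions on `ℝ ^ s` with `|w k| ≤ 1`, let `K ≥ K₀` and let
the variance `V` of the model be at least `c K`. Let a box of integer vectors be given all sides of which are at least
`C₀ (d + 1) p ^ A` where `p` is the prime with the number `K + s`. Then for all real `y` the proportion of the `ν` of the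
box for which the sum over `k < K` of the values of `w k` at the Frobenius angles of `E_ν : y² = x³ + a(ν) x + b(ν)` at the
`s` consecutive primes with the numbers `k, ..., k + s - 1` is at most `M + y sqrt V`, where `M` is the mean of the model, differs
by at most `ε` from `Φ(y)`. -/
theorem result (s : ℕ) (c ε : ℝ) (hc : 0 < c) (hε : 0 < ε) : ∃ (K₀ : ℕ) (C₀ : ℝ) (A : ℕ), 0 < C₀ ∧
    ∀ (d : ℕ) (a b : MvPolynomial (Fin d) ℤ) (w : ℕ → (Fin s → ℝ) → ℝ), (∀ k x, |w k x| ≤ 1) →
      ∀ K : ℕ, K₀ ≤ K → c * K ≤ modelVariance a b w K → ∀ (m : Fin d → ℤ) (L : Fin d → ℕ),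
        (∀ i, C₀ * (d + 1) * (Nat.nth Nat.Prime (K + s) : ℝ) ^ A ≤ L i) →
        ∀ y : ℝ, |proportion m L (fun ν => total w K (MvPolynomial.eval ν a) (MvPolynomial.eval ν b) ≤
          modelMean a b w K + y * Real.sqrt (modelVariance a b w K)) - Phi y| ≤ ε := by
  classical
  obtain ⟨K₀, C₀, A, hC₀, h⟩ := Q285MD.gauss_md s c ε hc hε
  refine ⟨K₀, C₀, A, hC₀, ?_⟩
  intro d a b w hw K hK hV m L hL y
  have hD := data d s K a b w hw
  obtain ⟨g, hg⟩ : ∃ g : ℕ → (Fin d → ℤ) → ℝ, g = fun k ν =>
      w k (fun i : Fin s => angle (MvPolynomial.eval ν a) (MvPolynomial.eval ν b) (Nat.nth Nat.Prime (k + i))) := ⟨_, rfl⟩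
  rw [← hg] at hD
  have htot : ∀ ν : Fin d → ℤ, total w K (MvPolynomial.eval ν a) (MvPolynomial.eval ν b) = ∑ k ∈ range K, g k ν := by
    intro ν
    rw [hg]
    rfl
  have hmean : modelMean a b w K = ∑ k ∈ range K, Q282LT.avg d (Q285MD.wm (Nat.nth Nat.Prime) s k) (g k) := by
    have h1 : modelMean a b w K = Q282LT.avg d (Q285MD.tm (Nat.nth Nat.Prime) (K + s)) fun ν => ∑ k ∈ range K, g k ν := by
      unfold modelMean
      simp only [htot]
      rfl
    rw [h1, Q285MD.avg_sum]
    refine sum_congr rfl fun k hk => ?_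
    exact Q285MD.avg_dvd hD.tm_pos (hD.wm_dvd (mem_range.1 hk)) (hD.per k (mem_range.1 hk))
  have hG : ∀ ν : Fin d → ℤ, ∑ k ∈ range K, Q285MD.G s (Nat.nth Nat.Prime) g k ν = ∑ k ∈ range K, g k ν - modelMean a b w K := by
    intro ν
    rw [hmean, ← sum_sub_distrib]
    rfl
  have hvar : Q285MD.vr d s K (Nat.nth Nat.Prime) g (range K) = modelVariance a b w K := by
    have h1 : modelMean a b w K = Q282LT.avg d (Q285MD.tm (Nat.nth Nat.Prime) (K + s)) fun ν => ∑ k ∈ range K, g k ν := by
      unfold modelMean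
      simp only [htot]
      rfl
    have h2 : modelVariance a b w K = Q282LT.avg d (Q285MD.tm (Nat.nth Nat.Prime) (K + s)) (fun ν => (∑ k ∈ range K, g k ν) ^ 2) -
        modelMean a b w K ^ 2 := by
      unfold modelVariance
      simp only [htot]
      rfl
    unfold Q285MD.vr
    simp only [hG]
    rw [Q285MD.avg_sub_sq hD.tm_pos (fun ν => ∑ k ∈ range K, g k ν) (modelMean a b w K) h1.symm, h2, ← h1]
  have hmono : Monotone (Nat.nth Nat.Prime) := Nat.nth_monotone Nat.infinite_setOf_prime
  have h3 := h d K (Nat.nth Nat.Prime) g hD hK (by rw [hvar]; exact hV) (Nat.nth Nat.Prime (K + s))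
    (fun i hi => hmono (by omega))
    (by
      have h4 : StrictMono (Nat.nth Nat.Prime) := Nat.nth_strictMono Nat.infinite_setOf_prime
      have h5 := h4.le_apply (x := K + s)
      omega)
    m L hL y
  rw [hvar] at h3
  unfold proportion Phi
  have h4 : ((box m L).filter fun ν => total w K (MvPolynomial.eval ν a) (MvPolynomial.eval ν b) ≤
      modelMean a b w K + y * Real.sqrt (modelVariance a b w K)) =
      (Q282LT.zbox m L).filter fun ν => ∑ k ∈ range K, Q285MD.G s (Nat.nth Nat.Prime) g k ν ≤ y * Real.sqrt (modelVariance a b w K) := by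
    have h5 : box m L = Q282LT.zbox m L := rfl
    rw [h5]
    apply filter_congr
    intro ν _
    rw [hG, htot, sub_le_iff_le_add']
  have h5 : ((((box m L).filter fun ν => total w K (MvPolynomial.eval ν a) (MvPolynomial.eval ν b) ≤
      modelMean a b w K + y * Real.sqrt (modelVariance a b w K)).card : ℕ) : ℝ) =
      ((((Q282LT.zbox m L).filter fun ν => ∑ k ∈ range K, Q285MD.G s (Nat.nth Nat.Prime) g k ν ≤
        y * Real.sqrt (modelVariance a b w K)).card : ℕ) : ℝ) := by
    rw [h4]
  rw [← h5] at h3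
  exact h3

end Pool.Agent.Results.MP_29be01_nt.GaussianLaw
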