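import Pool.Agent.Q69.DL.Main2
import Pool.Agent.Q255.EB.Ell

/-!
# Frobenius angles at `s` consecutive primes: large deviations of the discrepancy

Let `a, b` be arbitrary polynomials in `d` variables over `ℤ`, and `E_ν : y² = x³ + a(ν) x + b(ν)`, `ν ∈ ℤ^d`.
`A(R; K)` is the number of the `k < K` for which the Frobenius angles of `E_ν` at the `s` primes with the
numbers `k, …, k + s - 1` lie in `R`, a product of `s` intervals, and `M(R; K)` is its mean over the residues `ν`
modulo the product of the first `K + s` primes.  `V` is the supremum of the variances of `A(R; K')` over the same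
residues, for all `R` and all `K' ≤ K`.

For every family of curves with `V ≥ c K`, the proportion of the members for which
`|A(R; K') - M(R; K')| ≥ y √V` for SOME product `R` of intervals and SOME `K' ≤ K` is `exp (-(1 + o(1)) y² / 2)`,
for `1 ≪ y ≪ √K`, uniformly in the family and in the box of the parameters, the sides of which are
at least `(d + 1) p^(A y²)`, `p` the prime with the number `K + s`.  So the largest deviation over all boxes and all
`K' ≤ K` has the same Gaussian tails as the deviation of the single box of the largest variance.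
-/

set_option autoImplicit false

namespace Pool.Agent.Results.MP_29be01_nt.LargeDeviations

open Finset Pool.Agent.Q255.EB

lemma avg_longer {d s : ℕ} (a b : MvPolynomial (Fin d) ℤ) (R : Fin s → Set ℝ) {K' K : ℕ} (h : K' ≤ K) :
    Q282LT.avg d (Q285MD.tm pk (K + s)) (fun ν => (count (ang a b) R K' ν - cmean pk (ang a b) R K') ^ 2) =
      boxVariance a b R K' := by
  classical
  rw [boxVariance_eq]
  have hpos : 1 ≤ Q285MD.tm pk (K + s) := by
    unfold Q285MD.tm
    exact Nat.one_le_iff_ne_zero.2 (prod_ne_zero_iff.2 fun i _ => (pk_prime i).ne_zero)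
  have hdvd : Q285MD.tm pk (K' + s) ∣ Q285MD.tm pk (K + s) := by
    unfold Q285MD.tm
    refine prod_dvd_prod_of_subset _ _ _ fun i hi => ?_
    rw [mem_range] at hi ⊢
    omega
  have hper : Q282LT.ZPer (Q285MD.tm pk (K' + s)) (count (ang a b) R K') := by
    have h0 : count (ang a b) R K' =
        fun ν => ∑ k ∈ range K', if ∀ i : Fin s, ang a b (k + i) ν ∈ R i then (1 : ℝ) else 0 :=
      funext fun ν => count_sum (ang a b) R K' ν
    rw [h0]
    refine Q285MD.ZPer.sum fun k hk => ?_
    rw [mem_range] at hk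
    refine Q285MD.ZPer.of_dvd ?_ (ind_per (fam a b (K' + s)) R (by omega))
    unfold Q285MD.wm Q285MD.tm
    refine prod_dvd_prod_of_subset _ _ _ fun i hi => ?_
    rw [mem_Ico] at hi
    rw [mem_range]
    omega
  refine Q285MD.avg_dvd hpos hdvd ?_
  intro ν ν' hν
  show (count (ang a b) R K' ν - _) ^ 2 = (count (ang a b) R K' ν' - _) ^ 2
  rw [hper ν ν' hν]

/-- `s` is the length of the windows; the constants `y₀`, `δ`, `A` depend on `s`, `c` and `ε` only.

For every family `(a, b)`, every `K` with `V ≥ c K`, where `V` is the supremum of the variances of all boxes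
(products of `s` intervals) at all `K' ≤ K`, every `y` with `y₀ ≤ y ≤ δ √K` and every box of parameters with sides
at least `(d + 1) p^(A y²)`, `p` the prime with the number `K + s`: the proportion of the members for which
`|A(R; K') - M(R; K')| ≥ y √V` for some product `R` of intervals and some `K' ≤ K` is at least
`exp (-(1 + ε) y² / 2)` and at most `exp (-(1 - ε) y² / 2)`. -/
theorem result (s : ℕ) (c ε : ℝ) (hc : 0 < c) (hε : 0 < ε) : ∃ y₀ δ A : ℝ, 0 < y₀ ∧ 0 < δ ∧ 0 < A ∧
    ∀ (d : ℕ) (a b : MvPolynomial (Fin d) ℤ) (K : ℕ) (V : ℝ), c * K ≤ V →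
      IsLUB {v : ℝ | ∃ K' : ℕ, K' ≤ K ∧ ∃ R : Fin s → Set ℝ, (∀ i, (R i).OrdConnected) ∧
        v = boxVariance a b R K'} V →
      ∀ y : ℝ, y₀ ≤ y → y ≤ δ * √K → ∀ (u : Fin d → ℤ) (L : Fin d → ℕ),
        (∀ i, (d + 1) * (pk (K + s) : ℝ) ^ (A * y ^ 2) ≤ L i) →
        Real.exp (-((1 + ε) * (y ^ 2 / 2))) ≤ proportion u L (fun ν => ∃ K' : ℕ, K' ≤ K ∧ ∃ R : Fin s → Set ℝ,
          (∀ i, (R i).OrdConnected) ∧ y * √V ≤
            |boxCount R K' (MvPolynomial.eval ν a) (MvPolynomial.eval ν b) - boxMean a b R K'|) ∧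
        proportion u L (fun ν => ∃ K' : ℕ, K' ≤ K ∧ ∃ R : Fin s → Set ℝ,
          (∀ i, (R i).OrdConnected) ∧ y * √V ≤
            |boxCount R K' (MvPolynomial.eval ν a) (MvPolynomial.eval ν b) - boxMean a b R K'|) ≤
          Real.exp (-((1 - ε) * (y ^ 2 / 2))) := by
  obtain ⟨y₁, δ₁, A₁, hy₁, hδ₁, hA₁, hup⟩ := Q69DL.main_upper s c ε hc hε
  obtain ⟨y₂, δ₂, A₂, hy₂, hδ₂, hA₂, hlo⟩ := Q69DL.main_lower s c ε hc hε
  refine ⟨max y₁ y₂, min δ₁ δ₂, max A₁ A₂, lt_of_lt_of_le (by linarith) (le_max_left _ _),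
    lt_min hδ₁ hδ₂, lt_of_lt_of_le hA₁ (le_max_left _ _), ?_⟩
  intro d a b K V hV hlub y hy hyK u L hL
  have hsK : 0 ≤ √(K : ℝ) := Real.sqrt_nonneg _
  have hle : ∀ i < K + s, pk i ≤ pk (K + s) := fun i hi => pk_strictMono.monotone (by omega)
  have hKle : K ≤ pk (K + s) := by
    have := pk_strictMono.le_apply (x := K + s)
    omega
  have hp1 : (1 : ℝ) ≤ pk (K + s) := by exact_mod_cast (pk_prime _).one_lt.le
  have hLA : ∀ B : ℝ, B ≤ max A₁ A₂ → ∀ i, (d + 1) * (pk (K + s) : ℝ) ^ (B * y ^ 2) ≤ L i := by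
    intro B hB i
    refine le_trans (mul_le_mul_of_nonneg_left (Real.rpow_le_rpow_of_exponent_le hp1 ?_) (by positivity)) (hL i)
    exact mul_le_mul_of_nonneg_right hB (sq_nonneg y)
  have hvar : ∀ K' ≤ K, ∀ I : Fin s → Set ℝ, (∀ i, (I i).OrdConnected) →
      Q282LT.avg d (Q285MD.tm pk (K + s)) (fun ν => (count (ang a b) I K' ν - cmean pk (ang a b) I K') ^ 2) ≤ V := by
    intro K' hK' I hI
    rw [avg_longer a b I hK']
    exact hlub.1 ⟨K', hK', I, hI, rfl⟩
  have hsup : ∀ w < V, ∃ K' ≤ K, ∃ I : Fin s → Set ℝ, (∀ i, (I i).OrdConnected) ∧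
      w < Q282LT.avg d (Q285MD.tm pk (K + s))
        (fun ν => (count (ang a b) I K' ν - cmean pk (ang a b) I K') ^ 2) := by
    intro w hw
    obtain ⟨v, ⟨K', hK', I, hI, rfl⟩, hv, -⟩ := hlub.exists_between hw
    refine ⟨K', hK', I, hI, ?_⟩
    rwa [avg_longer a b I hK']
  have hM : ∀ (R : Fin s → Set ℝ) (K' : ℕ), boxMean a b R K' = cmean pk (ang a b) R K' := fun R K' =>
    boxMean_eq a b R K'
  simp only [hM]
  constructor
  · exact hlo d K pk (ang a b) (fam a b (K + s)) V hV hvar hsup y ((le_max_right _ _).trans hy)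
      (hyK.trans (mul_le_mul_of_nonneg_right (min_le_right _ _) hsK)) (pk (K + s)) hle hKle u L
      (hLA A₂ (le_max_right _ _))
  · exact hup d K pk (ang a b) (fam a b (K + s)) V hV hvar y ((le_max_left _ _).trans hy)
      (hyK.trans (mul_le_mul_of_nonneg_right (min_le_left _ _) hsK)) (pk (K + s)) hle hKle u L
      (hLA A₁ (le_max_left _ _))

end Pool.Agent.Results.MP_29be01_nt.LargeDeviations
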