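import Mathlib
import Pool.Agent.Q84.MB.F5
import Pool.Agent.W406.TW.Fin2

/-!
# Consecutive Frobenius angles of the twists of all small curves by the primes of a string

`ang A B q` is the Frobenius angle `x ∈ [0, 1]`, `a_q = 2 √q cos (π x)`, of `y² = x³ + A x + B` at the prime `q`
(`1/2` if `q` divides `2 (4 A³ + 27 B²)`), and `cons A B R K` the number of `k < K` for which the angles at the `s`
consecutive primes `p_k, …, p_{k+s-1}` (`p_0 = 2`) lie in the box `R`; `refl J R` is the box `R` with the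
coordinates in `J` reflected at `1/2`.

Let `s ≥ 0` and `ε > 0`. There are `C', δ > 0`, for every `m` a `c > 0` and for every `Z` a number `C` such that for
every large `X` there is a set `S` of at most `(log X) ^ (49 / 50)` primes, all larger than `Z`, such that for EVERY
function `f` with values `1` and `-1` on the primes at least `X ^ (1 - δ)` integers `n`, `X < n ≤ 3X`, satisfy: the
interval `[n, n + C]` contains at least `m` primes, and for every prime `p` in it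

* the twist by `p` reflects the angles at the odd primes `q ≤ c log X` outside `S` with `f q = -1` at `1/2` and
  keeps those with `f q = 1`, for all curves at once;
* for ALL curves with `|A|, |B| ≤ p ^ δ`, ALL `0 < |k| ≤ p ^ δ`, all `K` with `(log p) ^ C' ≤ K ≤ p ^ δ` and ALL
  boxes `R` the count for the twist by `k p` is the mean of the counts of the `2 ^ s` reflections of `R` for the
  curve itself, with the error `K ^ (1/2 + ε)`.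
-/

set_option autoImplicit false

open scoped Classical

namespace Pool.Agent.Results.MP_29be01_nt.TwistsByStringsOfPrimes

open Finset Filter Pool.Agent.W406.TW

/-- For all curves with coefficients at most `p ^ δ` and all `0 < |k| ≤ p ^ δ`, `(log p) ^ C ≤ K ≤ p ^ δ` and all
boxes `R` the number of the `k < K` for which the `s` consecutive angles of the twist by `k p` lie in `R` is the mean
over the `2 ^ s` reflections of `R` of the numbers for the curve itself, with an error `K ^ (1/2 + ε)`. -/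
def Good (s : ℕ) (ε C δ : ℝ) (p : ℕ) : Prop := ∀ A B k : ℤ, |(A : ℝ)| ≤ (p : ℝ) ^ δ → |(B : ℝ)| ≤ (p : ℝ) ^ δ →
  k ≠ 0 → |(k : ℝ)| ≤ (p : ℝ) ^ δ → ∀ K : ℕ, (Real.log p) ^ C ≤ K → (K : ℝ) ≤ (p : ℝ) ^ δ →
    ∀ R : Fin s → Set ℝ, (∀ i, (R i).OrdConnected) →
      |(cons (A * (k * p) ^ 2) (B * (k * p) ^ 3) R K : ℝ) -
        (1 / 2 ^ s) * ∑ J : Finset (Fin s), (cons A B (refl J R) K : ℝ)| ≤ (K : ℝ) ^ (1 / 2 + ε)

theorem result (s : ℕ) (ε : ℝ) (hε : 0 < ε) : ∃ C' δ : ℝ, 0 < C' ∧ 0 < δ ∧ ∀ m : ℕ, ∃ c : ℝ, 0 < c ∧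
    ∀ Z : ℕ, ∃ C : ℕ, ∃ X₀ : ℝ, ∀ X : ℝ, X₀ ≤ X →
    ∃ S : Finset ℕ, (∀ q ∈ S, q.Prime ∧ Z < q) ∧ (S.card : ℝ) ≤ (Real.log X) ^ (49 / 50 : ℝ) ∧
    ∀ f : ℕ → ℤ, (∀ q, f q = 1 ∨ f q = -1) →
      X ^ (1 - δ) ≤ (((Icc 1 ⌊3 * X⌋₊).filter fun n : ℕ => X < n ∧
        m ≤ ((Icc n (n + C)).filter Nat.Prime).card ∧
        ∀ p ∈ Icc n (n + C), p.Prime → Good s ε C' δ p ∧
          ∀ q : ℕ, q.Prime → q ≠ 2 → (q : ℝ) ≤ c * Real.log X → q ∉ S →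
            ∀ A B : ℤ, ang (A * p ^ 2) (B * p ^ 3) q = if f q = 1 then ang A B q else 1 - ang A B q).card : ℝ) := by
  obtain ⟨C₁, c₁, hC₁, hc₁, N₀, hN₀⟩ := cons_main s ε hε
  obtain ⟨c₂, hc₂⟩ : ∃ c₂, c₂ = min c₁ 1 := ⟨_, rfl⟩
  have hc20 : 0 < c₂ := by rw [hc₂]; exact lt_min hc₁ one_pos
  have hc21 : c₂ ≤ 1 := by rw [hc₂]; exact min_le_right _ _
  have hc2c : c₂ ≤ c₁ := by rw [hc₂]; exact min_le_left _ _
  obtain ⟨Bad, hBad⟩ : ∃ Bad : ℤ → ℤ → ℤ → ℕ → Prop, Bad = fun A B D (N : ℕ) => ∃ K : ℕ,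
    (Real.log N) ^ C₁ ≤ K ∧ (K : ℝ) ≤ (N : ℝ) ^ c₂ ∧ ∃ R : Fin s → Set ℝ, (∀ i, (R i).OrdConnected) ∧
      (K : ℝ) ^ (1 / 2 + ε) < |(cons (A * D ^ 2) (B * D ^ 3) R K : ℝ) -
        (1 / 2 ^ s) * ∑ J : Finset (Fin s), (cons A B (refl J R) K : ℝ)| := ⟨_, rfl⟩
  have hcnt : ∀ N : ℕ, max N₀ 1 ≤ N → ∀ A B : ℤ,
      ({D : ℤ | D ≠ 0 ∧ |D| ≤ N ∧ Bad A B D N}.ncard : ℝ) ≤ (N : ℝ) ^ (1 - c₂) := by
    intro N hN A B
    have hN1 : 1 ≤ N := (le_max_right _ _).trans hN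
    have hN1' : (1 : ℝ) ≤ N := by exact_mod_cast hN1
    have h1 := hN₀ N ((le_max_left _ _).trans hN) A B
    refine le_trans ?_ (h1.trans (Real.rpow_le_rpow_of_exponent_le hN1' (by linarith)))
    have hfin : {D : ℤ | D ≠ 0 ∧ |D| ≤ N ∧ ∃ K : ℕ, (Real.log N) ^ C₁ ≤ K ∧ (K : ℝ) ≤ (N : ℝ) ^ c₁ ∧
        ∃ R : Fin s → Set ℝ, (∀ i, (R i).OrdConnected) ∧
          (K : ℝ) ^ (1 / 2 + ε) < |(cons (A * D ^ 2) (B * D ^ 3) R K : ℝ) -
            (1 / 2 ^ s) * ∑ J : Finset (Fin s), (cons A B (refl J R) K : ℝ)|}.Finite := by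
      apply (Set.finite_Icc (-(N : ℤ)) N).subset
      intro D hD
      exact abs_le.1 hD.2.1
    have h2 : {D : ℤ | D ≠ 0 ∧ |D| ≤ N ∧ Bad A B D N} ⊆ {D : ℤ | D ≠ 0 ∧ |D| ≤ N ∧
        ∃ K : ℕ, (Real.log N) ^ C₁ ≤ K ∧ (K : ℝ) ≤ (N : ℝ) ^ c₁ ∧
        ∃ R : Fin s → Set ℝ, (∀ i, (R i).OrdConnected) ∧
          (K : ℝ) ^ (1 / 2 + ε) < |(cons (A * D ^ 2) (B * D ^ 3) R K : ℝ) -
            (1 / 2 ^ s) * ∑ J : Finset (Fin s), (cons A B (refl J R) K : ℝ)|} := by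
      intro D hD
      obtain ⟨h3, h4, h5⟩ := hD
      rw [hBad] at h5
      obtain ⟨x, hx1, hx2, hx3⟩ := h5
      exact ⟨h3, h4, x, hx1, hx2.trans (Real.rpow_le_rpow_of_exponent_le hN1' hc2c), hx3⟩
    exact_mod_cast Set.ncard_le_ncard h2 hfin
  obtain ⟨δ, hδ⟩ : ∃ δ, δ = c₂ / 8 := ⟨_, rfl⟩
  have hδ0 : 0 < δ := by rw [hδ]; positivity
  refine ⟨C₁ + 1, δ, by linarith, hδ0, fun m => ?_⟩
  obtain ⟨c, hc, hmain⟩ := Pool.Agent.Q84.MB.sym_strings m δ hδ0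
  refine ⟨c, hc, fun Z => ?_⟩
  obtain ⟨C, hC⟩ := hmain Z
  obtain ⟨X₀, hX₀⟩ := eventually_atTop.1 ((hC.and (Pool.Agent.Q84.MB.twist_bad Bad c₂ hc20 hc21 _ hcnt)).and
    ((Pool.Agent.Q84.MB.NN_range C₁ c₂ hC₁ hc20 hc21).and (eventually_ge_atTop (1 : ℝ))))
  refine ⟨C, X₀, fun X hX => ?_⟩
  obtain ⟨⟨⟨S, hS1, hS2, hS3⟩, hbad⟩, hrange, hX1⟩ := hX₀ X hX
  refine ⟨S, hS1, hS2, fun f hf => ?_⟩
  have hP : (((Icc 1 ⌊4 * X⌋₊).filter fun p : ℕ => p.Prime ∧ X < p ∧ ¬ Good s ε (C₁ + 1) δ p).card : ℝ) ≤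
      X ^ (1 - δ) := by
    refine (hbad _ fun p hp => ?_).trans (Real.rpow_le_rpow_of_exponent_le hX1 (by rw [hδ]; linarith))
    rw [mem_filter, mem_Icc] at hp
    obtain ⟨⟨-, hp4⟩, hpp, hXp, hg⟩ := hp
    have hp4' : (p : ℝ) ≤ 4 * X := (Nat.le_floor_iff (by linarith)).1 hp4
    unfold Good at hg
    push Not at hg
    obtain ⟨A, B, k, hA, hB, hk0, hk, K, hK1, hK2, R, hR, ht⟩ := hg
    rw [hδ] at hA hB hk hK2
    obtain ⟨hr1, hr2⟩ := hrange p hXp hp4'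
    refine ⟨hpp, hXp, hp4', A, B, k, hA, hB, hk0, hk, ?_⟩
    rw [hBad]
    exact ⟨K, hr1.trans hK1, hK2.trans hr2, R, hR, ht⟩
  have h3 := hS3 f hf (Good s ε (C₁ + 1) δ) hP
  refine h3.trans ?_
  have hsub : ((Icc 1 ⌊3 * X⌋₊).filter fun n : ℕ => X < n ∧
        Pool.Agent.Q84.MB.SymStr m C (c * Real.log X) S f (Good s ε (C₁ + 1) δ) n) ⊆
      ((Icc 1 ⌊3 * X⌋₊).filter fun n : ℕ => X < n ∧
        m ≤ ((Icc n (n + C)).filter Nat.Prime).card ∧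
        ∀ p ∈ Icc n (n + C), p.Prime → Good s ε (C₁ + 1) δ p ∧
          ∀ q : ℕ, q.Prime → q ≠ 2 → (q : ℝ) ≤ c * Real.log X → q ∉ S →
            ∀ A B : ℤ, ang (A * p ^ 2) (B * p ^ 3) q = if f q = 1 then ang A B q else 1 - ang A B q) := by
    intro n hn
    rw [mem_filter] at hn ⊢
    obtain ⟨h4, h5, h6, h7⟩ := hn
    refine ⟨h4, h5, h6, fun p hp hpp => ⟨(h7 p hp hpp).1, fun q hq hq2 hqy hqS A B => ?_⟩⟩
    have h8 := (h7 p hp hpp).2 q hq hq2 hqy hqS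
    rcases hf q with h9 | h9
    · rw [if_pos h9]
      exact ang_one A B p hq hq2 (h8.trans h9)
    · rw [if_neg (by rw [h9]; decide)]
      exact ang_neg A B p hq hq2 (h8.trans h9)
  exact_mod_cast card_le_card hsub

end Pool.Agent.Results.MP_29be01_nt.TwistsByStringsOfPrimes
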